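import Pool.Agent.Lib.MP_b7851d_lc.Hubs.Start
import Pool.Agent.Lib.MP_b7851d_lc.Conn.G1

/-!
# Hubs are joined with D-states
-/

namespace Pool.Agent.QuadEq.Star.Asm

open Pool.Agent.QuadEq.Hubs Pool.Agent.PolyTime

set_option linter.unusedSectionVars false

variable {α : Type} [DecidableEq α] {lam iota : α → α} {e f : α}

/-- A path as an execution. -/
theorem exec_path {k : ℕ} {A B : List α × List α} (h : PathW iota k A B) :
    ∃ w, execW iota w A = some B := by
  induction h with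
  | refl k A => exact ⟨[], rfl⟩
  | @step k A A' B b h hs hp ih =>
    obtain ⟨w, hw⟩ := ih
    exact ⟨b :: w, by rw [execW, h]; exact hw⟩
  | @win k A A' B b h hp ih =>
    obtain ⟨w, hw⟩ := ih
    exact ⟨b :: w, by rw [execW, h]; exact hw⟩

/-- A good pattern which is joined with a state gives a D-state. -/
theorem dst_of_jg {k : ℕ} {S : St α} (h : Good lam iota e f S) (hI : IrrW iota (S.P, S.Q))
    (hj : JG iota k (S.P, S.Q)) :
    ∃ D, Dst lam e f D ∧ Good lam iota e f D ∧
      PathW iota (k + (9 + 9 * (S.P.length + S.Q.length)) * (S.P.length + S.Q.length))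
        (S.P, S.Q) (D.P, D.Q) ∧
      PathW iota (k + (9 + 9 * (S.P.length + S.Q.length)) * (S.P.length + S.Q.length))
        (D.P, D.Q) (S.P, S.Q) := by
  obtain ⟨G, h1, h2, h3⟩ := hj
  obtain ⟨w, hw⟩ := exec_path h2
  obtain ⟨w', S', -, h4, rfl⟩ := exec_of_execW h hw
  have hS' : Good lam iota e f S' := (h.exec h4).1
  obtain ⟨-, h5, h6⟩ := path_keep h2 h.okW hI
  obtain ⟨D, h7, -, h8, h9⟩ := hub_of_g1 hS' (irr_of_good hS' h5) h1
  have hl : S'.P.length + S'.Q.length = S.P.length + S.Q.length := by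
    have := h6.length_eq
    simpa using this
  obtain ⟨h10, -⟩ := runs_good hS' h8
  have hlD := runs_length hS' h8
  have p1 := Runs.path hS' h8
  have p2 := Runs.path h10 h9
  rw [hlD] at p2
  rw [List.length_append, hl] at p1 p2
  refine ⟨D, dst_of_ds h7, h10, h2.trans p1, ?_⟩
  have := p2.trans h3
  rwa [Nat.add_comm] at this

/-- The bound. -/
def hK (k : ℕ → ℕ) (N : ℕ) : ℕ := (k N + N) + (9 + 9 * N) * N

theorem pb_hK {k : ℕ → ℕ} (hk : PB k) : PB (hK k) := by
  unfold hK
  exact (hk.add PB.id).add (((PB.const 9).add ((PB.const 9).mul PB.id)).mul PB.id)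

/-- **Hubs are joined with D-states.** -/
theorem con_of {k : ℕ → ℕ} (hq : QStm k) {S : St α} (h : Good lam iota e f S)
    (hI : IrrW iota (S.P, S.Q)) (hL : Alive iota (S.P, S.Q)) (hc : ¬ CPr iota (S.P, S.Q)) :
    ∃ D, Dst lam e f D ∧ Good lam iota e f D ∧
      PathW iota (hK k (S.P.length + S.Q.length)) (S.P, S.Q) (D.P, D.Q) ∧
      PathW iota (hK k (S.P.length + S.Q.length)) (D.P, D.Q) (S.P, S.Q) :=
  dst_of_jg h hI (joined hq h.okW hI hL hc)

end Pool.Agent.QuadEq.Star.Asm
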