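import Pool.Agent.Lib.MP_b7851d_lc.Hubs.Glue
import Pool.Agent.Lib.MP_b7851d_lc.Conn.Step
import Pool.Agent.Lib.MP_b7851d_lc.Star.SegEx

/-!
# The statement of the induction is true
-/

namespace Pool.Agent.QuadEq.Hubs

open Pool.Agent.QuadEq.Star Pool.Agent.QuadEq.Star.Asm Pool.Agent.QuadEq.Con

set_option linter.unusedSectionVars false

/-- The bound. -/
def kQ (N : ℕ) : ℕ := 50 * (N + 1) ^ 2

/-- The way from the second state. -/
theorem to_F0 {α : Type} [DecidableEq α] {iota : α → α} {x y w z : α}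
    {A0 A1 A2 A3 B0 B1 B2 B3 : List α}
    (hok : OkW iota (qS0 iota x y w z A0 A1 A2 A3 B0 B1 B2 B3)) :
    PathW iota (5 * ((qS0 iota x y w z A0 A1 A2 A3 B0 B1 B2 B3).1.length +
      (qS0 iota x y w z A0 A1 A2 A3 B0 B1 B2 B3).2.length))
      (qS0 iota x y w z A0 A1 A2 A3 B0 B1 B2 B3)
      (FS x (iota x) (iota y) (iota w) w y z (iota z) A0 A1 A2 A3 B0 B1 B2 B3) := by
  refine (sp [x, y, w, z] x [A0, A1, B1, A2, B0, A3, B2, B3] [false, true, false, false, true]
    ([0, 4, 1, 3, 5], [2, 6, 7]) ([0, 3, 2, 5], [4, 6, 1, 7]) (by decide) (by decide) ?_ ?_ hok).1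
  · simp [qS0, fl, flL, nm, nu, tls]
  · simp [FS, fl, flL, nm, nu, tls]

/-- **The statement of the induction is true.** -/
theorem qStm : QStm kQ := by
  intro α _ iota x y w z A0 A1 A2 A3 B0 B1 B2 B3 hok hirr
  obtain ⟨h1, h2⟩ := q_both (x := x) (X := iota x) (Y := iota y) (W := iota w) (w := w) (y := y)
    (z := z) (Z := iota z) (A₀ := A0) (A₁ := A1) (A₅ := A2) (A₃ := A3) (A₂ := B0) (A₄ := B1)
    (A₆ := B2) (A₇ := B3) rfl rfl rfl rfl hok hirr
  have h3 := fs_g1 (x := x) (X := iota x) (Y := iota y) (W := iota w) (w := w) (y := y)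
    (z := z) (Z := iota z) (A₀ := A0) (A₁ := A1) (A₅ := A2) (A₃ := A3) (A₂ := B0) (A₄ := B1)
    (A₆ := B2) (A₇ := B3) rfl rfl rfl rfl hok
  refine ⟨_, h3, h1, ?_, h2⟩
  have hP : ((qS0 iota x y w z A0 A1 A2 A3 B0 B1 B2 B3).1 ++
      (qS0 iota x y w z A0 A1 A2 A3 B0 B1 B2 B3).2).Perm
      ((qS iota x y w z A0 A1 A2 A3 B0 B1 B2 B3).1 ++
      (qS iota x y w z A0 A1 A2 A3 B0 B1 B2 B3).2) := by
    simp only [qS, qS0, List.cons_append, List.append_assoc]
    refine List.Perm.cons _ (List.Perm.append_left A0 ?_)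
    have h4 : List.Perm ((w :: B0) ++ ((iota x :: (A1 ++ iota y :: (A2 ++ iota w :: A3))) ++
        y :: (B1 ++ z :: (B2 ++ iota z :: B3)))) ((iota x :: (A1 ++ iota y :: (A2 ++ iota w :: A3))) ++
        ((w :: B0) ++ y :: (B1 ++ z :: (B2 ++ iota z :: B3)))) := by
      rw [← List.append_assoc, ← List.append_assoc]
      exact List.Perm.append_right _ List.perm_append_comm
    simpa using h4
  have hok0 : OkW iota (qS0 iota x y w z A0 A1 A2 A3 B0 B1 B2 B3) := hok.of_perm hP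
  have hl := hP.length_eq
  rw [List.length_append, List.length_append] at hl
  have h5 := to_F0 hok0
  rw [hl] at h5
  refine h5.mono ?_
  unfold kQ
  nlinarith

end Pool.Agent.QuadEq.Hubs

namespace Pool.Agent.QuadEq.Star.Asm

open Pool.Agent.QuadEq.Hubs Pool.Agent.PolyTime

/-- The bound. -/
def hH : ℕ → ℕ := hK kQ

theorem pb_hH : PB hH := by
  refine pb_hK ?_
  unfold kQ
  exact (PB.const 50).mul ((PB.id.add (PB.const 1)).pow 2)

/-- **Hubs are joined with D-states in both directions.** -/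
theorem con_all {α : Type} [DecidableEq α] (lam iota : α → α) (e f : α) (S : St α)
    (h : Good lam iota e f S) (hI : IrrW iota (S.P, S.Q)) (hL : Alive iota (S.P, S.Q))
    (hc : ¬ CPr iota (S.P, S.Q)) :
    ∃ D, Dst lam e f D ∧ Good lam iota e f D ∧
      PathW iota (hH (S.P.length + S.Q.length)) (S.P, S.Q) (D.P, D.Q) ∧
      PathW iota (hH (S.P.length + S.Q.length)) (D.P, D.Q) (S.P, S.Q) :=
  con_of qStm h hI hL hc

end Pool.Agent.QuadEq.Star.Asm
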