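import Pool.Agent.Lib.MP_b7851d_lc.Hubs.Uneat
import Pool.Agent.Lib.MP_b7851d_lc.Free.Stm

/-!
# The start of the induction

The statement `QStm` (proved in `Hubs/Step.lean`) gives a good pattern for every hub.
-/

namespace Pool.Agent.QuadEq.Hubs

open Pool.Agent.QuadEq.Star Pool.Agent.QuadEq.Star.Asm Pool.Agent.QuadEq.Free

set_option linter.unusedSectionVars false

/-- The first state of the induction. -/
def qS {α : Type} (iota : α → α) (x y w z : α) (A0 A1 A2 A3 B0 B1 B2 B3 : List α) :
    List α × List α :=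
  (x :: (A0 ++ iota x :: (A1 ++ iota y :: (A2 ++ iota w :: A3))),
    w :: (B0 ++ y :: (B1 ++ z :: (B2 ++ iota z :: B3))))

/-- The state after the first run. -/
def qS0 {α : Type} (iota : α → α) (x y w z : α) (A0 A1 A2 A3 B0 B1 B2 B3 : List α) :
    List α × List α :=
  (x :: (A0 ++ w :: (B0 ++ iota x :: (A1 ++ iota y :: (A2 ++ iota w :: A3)))),
    y :: (B1 ++ z :: (B2 ++ iota z :: B3)))

/-- **The statement of the induction.** -/
def QStm (k : ℕ → ℕ) : Prop :=
  ∀ (α : Type) [DecidableEq α] (iota : α → α) (x y w z : α) (A0 A1 A2 A3 B0 B1 B2 B3 : List α),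
    OkW iota (qS iota x y w z A0 A1 A2 A3 B0 B1 B2 B3) →
    IrrW iota (qS iota x y w z A0 A1 A2 A3 B0 B1 B2 B3) →
    ∃ G, Back.G1 iota G ∧
      PathW iota (k ((qS iota x y w z A0 A1 A2 A3 B0 B1 B2 B3).1.length +
        (qS iota x y w z A0 A1 A2 A3 B0 B1 B2 B3).2.length))
        (qS iota x y w z A0 A1 A2 A3 B0 B1 B2 B3) G ∧
      PathW iota (k ((qS iota x y w z A0 A1 A2 A3 B0 B1 B2 B3).1.length +
        (qS iota x y w z A0 A1 A2 A3 B0 B1 B2 B3).2.length))
        (qS0 iota x y w z A0 A1 A2 A3 B0 B1 B2 B3) G ∧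
      PathW iota (k ((qS iota x y w z A0 A1 A2 A3 B0 B1 B2 B3).1.length +
        (qS iota x y w z A0 A1 A2 A3 B0 B1 B2 B3).2.length))
        G (qS iota x y w z A0 A1 A2 A3 B0 B1 B2 B3)

variable {α : Type} [DecidableEq α] {iota : α → α}

/-- Joined with a good pattern. -/
def JG (iota : α → α) (k : ℕ) (A : List α × List α) : Prop :=
  ∃ G, Back.G1 iota G ∧ PathW iota k A G ∧ PathW iota k G A

theorem JG.of_mc {k : ℕ} {A B : List α × List α} (h : MC iota A B) (hB : JG iota k B) :
    JG iota k A := by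
  obtain ⟨G, h1, h2, h3⟩ := hB
  refine ⟨G, h1, ?_, ?_⟩
  · have := h.1.trans h2
    rwa [Nat.zero_add] at this
  · exact h3.trans h.2

theorem JG.swap {k : ℕ} {A : List α × List α} (h : JG iota k A) : JG iota k A.swap := by
  obtain ⟨G, h1, h2, h3⟩ := h
  exact ⟨G.swap, h1.swap, h2.swap, h3.swap⟩

theorem JG.mono {k l : ℕ} {A : List α × List α} (h : JG iota k A) (hkl : k ≤ l) : JG iota l A := by
  obtain ⟨G, h1, h2, h3⟩ := h
  exact ⟨G, h1, h2.mono hkl, h3.mono hkl⟩

/-- The case of a same-side letter. -/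
theorem start_tt {k : ℕ → ℕ} (hq : QStm k) {x y z d : α} {a b R₁ R₂ R₃ V1 V2 V3 : List α}
    (h : OkW iota (x :: (a ++ d :: (b ++ iota x :: (R₁ ++ iota y :: (R₂ ++ iota d :: R₃)))),
      y :: (V1 ++ z :: (V2 ++ iota z :: V3))))
    (hI : IrrW iota (x :: (a ++ d :: (b ++ iota x :: (R₁ ++ iota y :: (R₂ ++ iota d :: R₃)))),
      y :: (V1 ++ z :: (V2 ++ iota z :: V3)))) :
    JG iota (k ((x :: (a ++ d :: (b ++ iota x :: (R₁ ++ iota y :: (R₂ ++ iota d :: R₃))))).length +
      (y :: (V1 ++ z :: (V2 ++ iota z :: V3))).length) +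
      ((x :: (a ++ d :: (b ++ iota x :: (R₁ ++ iota y :: (R₂ ++ iota d :: R₃))))).length +
      (y :: (V1 ++ z :: (V2 ++ iota z :: V3))).length))
      (x :: (a ++ d :: (b ++ iota x :: (R₁ ++ iota y :: (R₂ ++ iota d :: R₃)))),
      y :: (V1 ++ z :: (V2 ++ iota z :: V3))) := by
  obtain ⟨h1, h2, h3⟩ := uneat h hI
  obtain ⟨G, h4, -, h5, h6⟩ := hq α iota x y d z a R₁ R₂ R₃ b V1 V2 V3 h1 h2
  have e : (qS iota x y d z a R₁ R₂ R₃ b V1 V2 V3).1.length +
      (qS iota x y d z a R₁ R₂ R₃ b V1 V2 V3).2.length =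
      (x :: (a ++ d :: (b ++ iota x :: (R₁ ++ iota y :: (R₂ ++ iota d :: R₃))))).length +
      (y :: (V1 ++ z :: (V2 ++ iota z :: V3))).length := by
    simp only [qS, List.length_cons, List.length_append]
    omega
  rw [e] at h5 h6
  refine ⟨G, h4, h5.mono (by omega), (h6.trans h3).mono ?_⟩
  simp only [List.length_cons, List.length_append]
  omega

/-- The case of a mixed letter whose partner stands behind a bottom pair token. -/
theorem start_g1 {x y z d : α} {A R₃ V1 V2 : List α} (hx : x ∈ A) (hx' : iota x ∈ A)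
    (hz : z ∈ V1) (hz' : iota z ∈ V1 ∨ iota z ∈ V2) :
    Back.G1 iota (d :: (A ++ iota y :: R₃), y :: (V1 ++ iota d :: V2)) :=
  ⟨d, y, A, R₃, V1, V2, rfl, Or.inl ⟨x, hx, hx', z, hz, hz'⟩⟩

/-- **The start.** -/
theorem start {k : ℕ → ℕ} (hq : QStm k) {p y : α} {U₁ U₂ U₃ V : List α}
    (h : OkW iota (p :: (U₁ ++ iota p :: (U₂ ++ iota y :: U₃)), y :: V))
    (hI : IrrW iota (p :: (U₁ ++ iota p :: (U₂ ++ iota y :: U₃)), y :: V))
    (hb : ∃ z ∈ V, iota z ∈ V) :
    JG iota (k ((p :: (U₁ ++ iota p :: (U₂ ++ iota y :: U₃))).length + (y :: V).length) +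
      ((p :: (U₁ ++ iota p :: (U₂ ++ iota y :: U₃))).length + (y :: V).length))
      (p :: (U₁ ++ iota p :: (U₂ ++ iota y :: U₃)), y :: V) := by
  have hi : ∀ z, z ∈ p :: (U₁ ++ iota p :: (U₂ ++ iota y :: U₃)) ∨ z ∈ y :: V → iota (iota z) = z :=
    fun z hz => h.inv z (List.mem_append.2 hz)
  have hn : ∀ z, z ∈ p :: (U₁ ++ iota p :: (U₂ ++ iota y :: U₃)) ∨ z ∈ y :: V → iota z ≠ z :=
    fun z hz => h.ne z (List.mem_append.2 hz)
  have hm : ∀ z, z ∈ p :: (U₁ ++ iota p :: (U₂ ++ iota y :: U₃)) ∨ z ∈ y :: V →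
      iota z ∈ p :: (U₁ ++ iota p :: (U₂ ++ iota y :: U₃)) ∨ iota z ∈ y :: V :=
    fun z hz => List.mem_append.1 (h.mem z (List.mem_append.2 hz))
  have hnd := h.nd
  have hpp : iota (iota p) = p := hi p (Or.inl (by simp))
  have hVi : ∀ s ∈ V, iota (iota s) = s := fun s hs => hi s (Or.inr (by simp [hs]))
  have hVn : ∀ s ∈ V, iota s ≠ s := fun s hs => hn s (Or.inr (by simp [hs]))
  -- the rotated state
  have rot : MC iota (p :: (U₁ ++ iota p :: (U₂ ++ iota y :: U₃)), y :: V)
      (iota p :: (U₂ ++ p :: (U₁ ++ iota y :: U₃)), y :: V) ∧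
      OkW iota (iota p :: (U₂ ++ p :: (U₁ ++ iota y :: U₃)), y :: V) := by
    have h1 : OkW iota ((p :: U₁) ++ ((iota p :: U₂) ++ iota y :: U₃), y :: V) := by simpa using h
    have h2 := mc_rot' h1
    have h3 := (ok_rot h1.swap).swap
    exact ⟨by simpa using h2, by simpa using h3⟩
  have hI' := (path_keep rot.1.1 h hI).2.1
  have hlen : (iota p :: (U₂ ++ p :: (U₁ ++ iota y :: U₃))).length =
      (p :: (U₁ ++ iota p :: (U₂ ++ iota y :: U₃))).length := by
    simp only [List.length_cons, List.length_append]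
    omega
  by_cases c1 : ∃ d ∈ U₁ ++ U₂, iota d ∈ U₃
  · obtain ⟨d, hd, hd'⟩ := c1
    obtain ⟨R₂, R₃, rfl⟩ := List.append_of_mem hd'
    obtain ⟨z, V1, V2, V3, rfl⟩ := pair_split hVi hVn hb
    rcases List.mem_append.1 hd with hd | hd
    · obtain ⟨a, b, rfl⟩ := List.append_of_mem hd
      have h3 := start_tt hq (x := p) (y := y) (z := z) (d := d) (a := a) (b := b) (R₁ := U₂)
        (R₂ := R₂) (R₃ := R₃) (V1 := V1) (V2 := V2) (V3 := V3) (by simpa using h) (by simpa using hI)
      simpa using h3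
    · obtain ⟨a, b, rfl⟩ := List.append_of_mem hd
      refine JG.of_mc rot.1 ?_
      rw [← hlen]
      have h3 := start_tt (iota := iota) hq (x := iota p) (y := y) (z := z) (d := d) (a := a) (b := b) (R₁ := U₁)
        (R₂ := R₂) (R₃ := R₃) (V1 := V1) (V2 := V2) (V3 := V3) (by rw [hpp]; simpa using rot.2)
        (by rw [hpp]; simpa using hI')
      rw [hpp] at h3
      simpa using h3
  by_cases c2 : ∃ d ∈ U₁ ++ U₂, iota d ∈ V
  · obtain ⟨d, hd, hd'⟩ := c2
    obtain ⟨V₁, V₂, rfl⟩ := List.append_of_mem hd'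
    by_cases c3 : ∃ z ∈ V₁, iota z ∈ V₁ ++ iota d :: V₂
    · obtain ⟨z, hz, hz'⟩ := c3
      have hz'' : iota z ∈ V₁ ∨ iota z ∈ V₂ := by
        rw [List.mem_append, List.mem_cons] at hz'
        rcases hz' with h3 | h3 | h3
        · exact Or.inl h3
        · exfalso
          have h4 : z = d := by
            have h5 := hi z (Or.inr (by simp [hz]))
            have h6 := hi d (Or.inl (by
              rw [List.mem_append] at hd
              simp only [List.mem_cons, List.mem_append]
              tauto))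
            rw [← h5, h3, h6]
          subst h4
          refine (List.nodup_append.1 hnd).2.2 z ?_ z (by simp [hz]) rfl
          rw [List.mem_append] at hd
          simp only [List.mem_cons, List.mem_append]
          tauto
        · exact Or.inr h3
      rcases List.mem_append.1 hd with hd | hd
      · obtain ⟨a, b, rfl⟩ := List.append_of_mem hd
        have h1 : OkW iota ((p :: a) ++ ((d :: (b ++ iota p :: U₂)) ++ iota y :: U₃),
          y :: (V₁ ++ iota d :: V₂)) := by simpa using h
        have h2 := mc_rot' h1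
        refine JG.of_mc (B := (d :: ((b ++ iota p :: (U₂ ++ p :: a)) ++ iota y :: U₃),
          y :: (V₁ ++ iota d :: V₂))) (by simpa using h2) ?_
        refine ⟨_, start_g1 (x := p) ?_ ?_ hz hz'', PathW.refl _ _, PathW.refl _ _⟩
        · simp
        · simp
      · obtain ⟨a, b, rfl⟩ := List.append_of_mem hd
        have h1 : OkW iota ((p :: (U₁ ++ iota p :: a)) ++ ((d :: b) ++ iota y :: U₃),
          y :: (V₁ ++ iota d :: V₂)) := by simpa using h
        have h2 := mc_rot' h1
        refine JG.of_mc (B := (d :: ((b ++ p :: (U₁ ++ iota p :: a)) ++ iota y :: U₃),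
          y :: (V₁ ++ iota d :: V₂))) (by simpa using h2) ?_
        refine ⟨_, start_g1 (x := p) ?_ ?_ hz hz'', PathW.refl _ _, PathW.refl _ _⟩
        · simp
        · simp
    · -- the bottom pair stands behind the partner of `d`
      have hdd : iota (iota d) = d := hi d (Or.inl (by
        rw [List.mem_append] at hd
        simp only [List.mem_cons, List.mem_append]
        tauto))
      have hb' : ∃ z ∈ V₂, iota z ∈ V₂ := by
        obtain ⟨z, hz, hz'⟩ := hb
        have key : ∀ s ∈ V₁ ++ iota d :: V₂, iota s ∈ V₁ ++ iota d :: V₂ → s ∈ V₂ := by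
          intro s hs hs'
          have hs0 := hs
          rw [List.mem_append, List.mem_cons] at hs
          rcases hs with h3 | h3 | h3
          · exact absurd ⟨s, h3, hs'⟩ c3
          · exfalso
            subst h3
            rw [hdd] at hs'
            refine (List.nodup_append.1 hnd).2.2 d ?_ d (List.mem_cons_of_mem _ hs') rfl
            rw [List.mem_append] at hd
            simp only [List.mem_cons, List.mem_append]
            tauto
          · exact h3
        refine ⟨z, key z hz hz', key (iota z) hz' ?_⟩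
        rw [hVi z hz]
        exact hz
      obtain ⟨z, V3, V4, V5, rfl⟩ := pair_split (fun s hs => hVi s (by simp [hs]))
        (fun s hs => hVn s (by simp [hs])) hb'
      rcases List.mem_append.1 hd with hd | hd
      · obtain ⟨a, b, rfl⟩ := List.append_of_mem hd
        refine JG.of_mc rot.1 ?_
        rw [← hlen]
        obtain ⟨G, h4, h5, -, h6⟩ := hq α iota (iota p) (iota d) y z U₂ a b U₃ V₁ V3 V4 V5
          (by unfold qS; rw [hpp, hdd]; simpa using rot.2)
          (by unfold qS; rw [hpp, hdd]; simpa using hI')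
        unfold qS at h5 h6
        rw [hpp, hdd] at h5 h6
        refine ⟨G, h4, ?_, ?_⟩
        · refine (PathW.mono (k := _) ?_ (Nat.le_add_right _ _))
          simpa using h5
        · refine (PathW.mono (k := _) ?_ (Nat.le_add_right _ _))
          simpa using h6
      · obtain ⟨a, b, rfl⟩ := List.append_of_mem hd
        obtain ⟨G, h4, h5, -, h6⟩ := hq α iota p (iota d) y z U₁ a b U₃ V₁ V3 V4 V5
          (by unfold qS; rw [hdd]; simpa using h)
          (by unfold qS; rw [hdd]; simpa using hI)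
        unfold qS at h5 h6
        rw [hdd] at h5 h6
        refine ⟨G, h4, ?_, ?_⟩
        · refine (PathW.mono (k := _) ?_ (Nat.le_add_right _ _))
          simpa using h5
        · refine (PathW.mono (k := _) ?_ (Nat.le_add_right _ _))
          simpa using h6
  -- no crossing letter
  exfalso
  have h3 := hI (p :: (U₁ ++ iota p :: (U₂ ++ [iota y]))) U₃ [y] V (by simp) (by simp) (by simp)
    (by simp) (by
      intro z hz
      have h1 := hi z
      have h2 := hn z
      have h3 := hm z
      have h4 := hi y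
      have h5 := hn y
      simp only [List.nodup_append, List.nodup_cons, List.mem_append, List.mem_cons,
        List.cons_append, List.append_assoc, not_or, not_exists, not_and, List.not_mem_nil,
        or_false, false_or, or_true, true_implies] at hz h1 h2 h3 h4 h5 hnd c1 c2 hpp ⊢
      grind)
  obtain ⟨z, hz, -⟩ := hb
  rw [h3.2] at hz
  simp at hz

/-- Living states come from living states. -/
theorem alive_path {k : ℕ} {A B : List α × List α} (h : PathW iota k A B) :
    OkW iota A → Alive iota B → Alive iota A := by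
  induction h with
  | refl k A => exact fun _ h2 => h2
  | @step k A A' B b h hs hp ih => exact fun h1 h2 => Alive.of_stepW h1 h (ih (okW_stepW h1 h) h2)
  | @win k A A' B b h hp ih => exact fun h1 h2 => Alive.of_stepW h1 h (ih (okW_stepW h1 h) h2)

/-- The start for a pattern. -/
theorem start_pp {k : ℕ → ℕ} (hq : QStm k) {A : List α × List α} (hA : OkW iota A)
    (hI : IrrW iota A) (hL : Alive iota A) (hp : PP0 iota A) :
    JG iota (k (A.1.length + A.2.length) + (A.1.length + A.2.length)) A := by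
  obtain ⟨p, w, U₁, U₂, U₃, V, rfl⟩ := hp
  refine start hq hA hI ?_
  obtain ⟨z, hz, hz'⟩ := hL.2
  simp only at hz hz'
  have hd := (List.nodup_append.1 hA.nd).2.2
  have h1 : ∀ s ∈ w :: V, iota s ∈ w :: V → s ∈ V := by
    intro s hs hs'
    rcases List.mem_cons.1 hs with h2 | h2
    · exfalso
      subst h2
      exact hd (iota s) (by simp) (iota s) hs' rfl
    · exact h2
  refine ⟨z, h1 z hz hz', h1 (iota z) hz' ?_⟩
  rw [hA.inv z (List.mem_append_right _ hz)]
  exact hz

/-- **Hubs are joined with good patterns.** -/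
theorem joined {k : ℕ → ℕ} (hq : QStm k) {A : List α × List α} (hA : OkW iota A)
    (hI : IrrW iota A) (hL : Alive iota A) (hc : ¬ CPr iota A) :
    JG iota (k (A.1.length + A.2.length) + (A.1.length + A.2.length)) A := by
  have h1 : A.1 ≠ [] := by
    obtain ⟨x, hx, -⟩ := hL.1
    exact List.ne_nil_of_mem hx
  have h2 : A.2 ≠ [] := by
    obtain ⟨x, hx, -⟩ := hL.2
    exact List.ne_nil_of_mem hx
  obtain ⟨A', h3, h4⟩ := hub_of_not_cpr hA h1 h2 hc
  obtain ⟨h5, h6, h7⟩ := path_keep h3.1 hA hI
  have hL' : Alive iota A' := alive_path h3.2 h5 hL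
  have hlen : A'.1.length + A'.2.length = A.1.length + A.2.length := by
    have := h7.length_eq
    simpa using this
  refine JG.of_mc h3 ?_
  rw [← hlen]
  rcases h4 with h4 | h4
  · exact start_pp hq h5 h6 hL' h4
  · have h8 := (start_pp hq h5.swap h6.swap hL'.swap h4).swap
    rw [Prod.swap_swap] at h8
    refine h8.mono ?_
    simp only [Prod.fst_swap, Prod.snd_swap]
    rw [Nat.add_comm A'.2.length]

end Pool.Agent.QuadEq.Hubs
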