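import Pool.Agent.Lib.MP_b7851d_lc.Star.FW
import Pool.Agent.Lib.MP_b7851d_lc.Free.Hub
import Pool.Agent.Lib.MP_b7851d_lc.Back.Base

/-!
# The inverse of a run of same-side wins
-/

namespace Pool.Agent.QuadEq.Hubs

open Pool.Agent.QuadEq.Star Pool.Agent.QuadEq.Star.Asm Pool.Agent.QuadEq.Free

set_option linter.unusedSectionVars false

variable {α : Type} [DecidableEq α] {iota : α → α}

/-- A path keeps the conditions. -/
theorem path_keep {k : ℕ} {A B : List α × List α} (h : PathW iota k A B) :
    OkW iota A → IrrW iota A → OkW iota B ∧ IrrW iota B ∧ (B.1 ++ B.2).Perm (A.1 ++ A.2) := by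
  induction h with
  | refl k A => exact fun h1 h2 => ⟨h1, h2, List.Perm.refl _⟩
  | @step k A A' B b h hs hp ih =>
    intro h1 h2
    obtain ⟨h3, h4, h5⟩ := ih (okW_stepW h1 h) (h2.stepW h1 h)
    exact ⟨h3, h4, h5.trans (stepW_perm h1 h)⟩
  | @win k A A' B b h hp ih =>
    intro h1 h2
    obtain ⟨h3, h4, h5⟩ := ih (okW_stepW h1 h) (h2.stepW h1 h)
    exact ⟨h3, h4, h5.trans (stepW_perm h1 h)⟩

/-- The first token of the top word eats one token. -/
theorem eat1 {x d : α} {A R V : List α} (h : OkW iota (x :: (A ++ iota x :: R), d :: V))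
    (hV : V ≠ []) :
    PathW iota 1 (x :: (A ++ iota x :: R), d :: V) (x :: (A ++ d :: iota x :: R), V) := by
  have hnd := h.nd
  have h1 : d ≠ iota x := by
    rintro rfl
    have := (List.nodup_append.1 hnd).2.2 (iota x) (by simp) (iota x) (by simp)
    exact this rfl
  have h2 : iota x ∉ A := by
    intro h'
    have := (List.nodup_cons.1 (List.nodup_append.1 hnd).1).2
    exact (List.nodup_append.1 this).2.2 _ h' _ (by simp) rfl
  have h3 : iota x ∉ V := by
    intro h'
    exact (List.nodup_append.1 hnd).2.2 (iota x) (by simp) (iota x) (by simp [h']) rfl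
  refine PathW.win true (A' := (x :: (A ++ d :: iota x :: R), V)) ?_ (PathW.refl 0 _)
  have h4 : ¬ (d = iota x ∨ V = []) := by
    rintro (h5 | h5)
    · exact h1 h5
    · exact hV h5
  simp only [stepW, cond_true, tW, if_neg h4]
  rw [Asm.insB_split h2, insB_not_mem h3]

/-- The first token of the top word eats a word. -/
theorem eat {x w : α} {R V : List α} : ∀ (Z A : List α),
    OkW iota (x :: (A ++ iota x :: R), Z ++ w :: V) →
    PathW iota Z.length (x :: (A ++ iota x :: R), Z ++ w :: V)
      (x :: (A ++ (Z ++ iota x :: R)), w :: V)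
  | [], A, _ => PathW.refl _ _
  | d :: Z, A, h => by
    have h1 := eat1 (V := Z ++ w :: V) h (by simp)
    have h2 : OkW iota (x :: ((A ++ [d]) ++ iota x :: R), Z ++ w :: V) := by
      refine h.of_perm ?_
      simp only [List.cons_append, List.append_assoc, List.nil_append]
      refine List.Perm.cons _ (List.Perm.append_left A ?_)
      have : List.Perm (d :: (iota x :: R ++ (Z ++ w :: V))) (iota x :: R ++ d :: (Z ++ w :: V)) :=
        (List.perm_middle).symm
      simpa using this
    have h3 := eat Z (A ++ [d]) h2
    have h4 := h1.trans (by simpa using h3)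
    rw [List.length_cons, Nat.add_comm]
    simpa using h4

/-- A letter `d` and the tokens behind it come back. -/
theorem ok_uneat {x d w : α} {A B R V : List α}
    (h : OkW iota (x :: (A ++ d :: (B ++ iota x :: R)), w :: V)) :
    OkW iota (x :: (A ++ iota x :: R), d :: (B ++ w :: V)) := by
  refine h.of_perm ?_
  simp only [List.cons_append, List.append_assoc]
  refine List.Perm.cons _ (List.Perm.append_left A ?_)
  have h1 : List.Perm ((iota x :: R) ++ ((d :: B) ++ w :: V)) ((d :: B) ++ ((iota x :: R) ++ w :: V)) := by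
    rw [← List.append_assoc, ← List.append_assoc]
    exact List.Perm.append_right _ List.perm_append_comm
  simpa using h1

/-- **The inverse of a run.** The letter `d` has one token between the two tokens of `x` and one
token behind the partner of the first bottom token. Then `d` and the tokens behind it come from the
bottom word, and there was no closed pair of prefixes before. -/
theorem uneat {x d w : α} {A B R₁ R₂ R₃ V : List α}
    (h : OkW iota (x :: (A ++ d :: (B ++ iota x :: (R₁ ++ iota w :: (R₂ ++ iota d :: R₃)))), w :: V))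
    (hI : IrrW iota
      (x :: (A ++ d :: (B ++ iota x :: (R₁ ++ iota w :: (R₂ ++ iota d :: R₃)))), w :: V)) :
    OkW iota (x :: (A ++ iota x :: (R₁ ++ iota w :: (R₂ ++ iota d :: R₃))), d :: (B ++ w :: V)) ∧
    IrrW iota (x :: (A ++ iota x :: (R₁ ++ iota w :: (R₂ ++ iota d :: R₃))), d :: (B ++ w :: V)) ∧
    PathW iota (B.length + 1)
      (x :: (A ++ iota x :: (R₁ ++ iota w :: (R₂ ++ iota d :: R₃))), d :: (B ++ w :: V))
      (x :: (A ++ d :: (B ++ iota x :: (R₁ ++ iota w :: (R₂ ++ iota d :: R₃)))), w :: V) := by
  have h2 := ok_uneat h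
  refine ⟨h2, ?_, ?_⟩
  · intro U₁ U₂ V₁ V₂ e1 e2 n1 n2 hc
    simp only at e1 e2
    have hnd2 := h2.nd
    simp only at hnd2
    have hn1 := (List.nodup_append.1 hnd2).1
    have hn2 := (List.nodup_append.1 hnd2).2.1
    have hdis := (List.nodup_append.1 hnd2).2.2
    -- the token `d`
    obtain ⟨d', V₁', rfl⟩ := List.exists_cons_of_ne_nil n2
    rw [List.cons_append, List.cons.injEq] at e2
    obtain ⟨rfl, e2⟩ := e2
    have hd : iota d ∈ U₁ := by
      rcases List.mem_append.1 (hc d (by simp)) with h3 | h3
      · exact h3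
      · exfalso
        exact hdis (iota d) (by simp) (iota d) (by
          rw [e2]
          exact List.mem_append_left V₂ h3) rfl
    -- everything before the partner of `d` is in the first part
    obtain ⟨U₁', e3, e4⟩ : ∃ U₁', U₁ = (x :: (A ++ iota x :: (R₁ ++ iota w :: R₂))) ++ iota d :: U₁' ∧
        R₃ = U₁' ++ U₂ := by
      have e5 : (x :: (A ++ iota x :: (R₁ ++ iota w :: R₂))) ++ iota d :: R₃ = U₁ ++ U₂ := by
        rw [← e1]; simp
      have h5 : iota d ∉ U₂ := by
        intro h6
        rw [e1] at hn1
        exact (List.nodup_append.1 hn1).2.2 _ hd _ h6 rfl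
      exact Back.split_mem e5 h5
    have hw : w ∈ V₁' := by
      have h3 : iota w ∈ U₁ ++ d :: V₁' := by rw [e3]; simp
      have h4 := hc _ h3
      have h5 : iota (iota w) = w := h.inv w (by simp)
      rw [h5] at h4
      have hwd : w ≠ d := by
        rintro rfl
        have := (List.nodup_cons.1 hn2).1
        exact this (by simp)
      have hwU : w ∉ U₁ := by
        intro h6
        exact hdis w (by rw [e1]; exact List.mem_append_left _ h6) w (by simp) rfl
      rw [List.mem_append, List.mem_cons] at h4
      rcases h4 with h4 | h4 | h4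
      · exact absurd h4 hwU
      · exact absurd h4 hwd
      · exact h4
    obtain ⟨V₁'', e5, e6⟩ : ∃ V₁'', V₁' = B ++ w :: V₁'' ∧ V = V₁'' ++ V₂ := by
      have h5 : w ∉ V₂ := by
        intro h6
        rw [e2] at hn2
        have := (List.nodup_cons.1 hn2).2
        exact (List.nodup_append.1 this).2.2 _ hw _ h6 rfl
      exact Back.split_mem e2 h5
    subst e3 e4 e5 e6
    have key := hI (x :: (A ++ d :: (B ++ iota x :: (R₁ ++ iota w :: (R₂ ++ iota d :: U₁')))))
      U₂ (w :: V₁'') V₂ (by simp) (by simp) (by simp) (by simp) (by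
        intro z hz
        have h3 := hc z (by
          simp only [List.mem_append, List.mem_cons, List.cons_append] at hz ⊢
          tauto)
        simp only [List.mem_append, List.mem_cons, List.cons_append] at h3 ⊢
        tauto)
    exact key
  · have h3 := eat (x := x) (w := w) (R := R₁ ++ iota w :: (R₂ ++ iota d :: R₃)) (V := V) (d :: B) A
      (by simpa using h2)
    simpa using h3

end Pool.Agent.QuadEq.Hubs
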